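import Mathlib
import Pool.Agent.H.MP_5801e7_an.F

set_option autoImplicit false

namespace Pool.Agent.Results.MP_5801e7_an.NotPrimary

open Pool.Agent.H.MP_5801e7_an

theorem result (𝕜 : Type) [RCLike 𝕜] :
    ∃ (E : Type) (_ : NormedAddCommGroup E) (_ : NormedSpace 𝕜 E), CompleteSpace E ∧
      ¬ FiniteDimensional 𝕜 E ∧ Splits 𝕜 E ∧ ¬ Splits 𝕜 (StrongDual 𝕜 E) := by
  let H := lp (fun _ : ℕ => 𝕜) 2
  let o : ℕ → H := fun k => lp.single 2 k 1
  have ho : Orthonormal 𝕜 o := by
    rw [orthonormal_iff_ite]
    intro i j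
    simp only [o, H, lp.inner_single_left, lp.single_apply, Pi.single_apply]
    split_ifs <;> simp
  have hsep : TopologicalSpace.SeparableSpace H := by
    rw [← TopologicalSpace.isSeparable_univ_iff]
    refine ((Set.countable_range o).isSeparable.span (R := 𝕜)).closure.mono fun f _ => ?_
    refine mem_closure_of_tendsto (lp.hasSum_single (by simp) f)
      (Filter.Eventually.of_forall fun s => Submodule.sum_mem _ fun n _ => ?_)
    have : lp.single 2 n (f n) = f n • o n := by
      rw [← lp.single_smul]; simp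
    rw [this]
    exact Submodule.smul_mem _ _ (Submodule.subset_span ⟨n, rfl⟩)
  obtain ⟨x, hx, hu, hf⟩ := exists_family 𝕜 (ho.1 0)
  refine ⟨X 𝕜 x, inferInstance, inferInstance, inferInstance, fun hfin => ?_,
    fun Y Z hY hZ h => primary (ho.1 0) hx hf (Submodule.prodEquivOfClosedCompl Y Z h hY hZ),
    fun h => (h _ _ (ContinuousLinearMap.isClosed_ker _) (ContinuousLinearMap.isClosed_ker _)
      compl).elim (notY (ho.1 0) hx ho) (notZ (ho.1 0) hx hu)⟩
  have hi : Function.Injective (sgX (𝕜 := 𝕜) (x := x) 0) := fun a b h => by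
    simpa [val_sgX] using congrArg (fun f => val f 0) h
  have := Module.Finite.of_injective (sgX (𝕜 := 𝕜) (x := x) 0).toLinearMap hi
  exact Module.Finite.not_linearIndependent_of_infinite o ho.linearIndependent

end Pool.Agent.Results.MP_5801e7_an.NotPrimary
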